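import Mathlib

namespace Pool.Agent.Results.MP_8a65de_an.Counter

open Set Filter Topology Function

/-- `N_T(U,V)`. -/
def N {X : Type*} (T : X → X) (U V : Set X) : Set ℕ := {n | (U ∩ T^[n] ⁻¹' V).Nonempty}

/-- open and nonempty. -/
def Opene {X : Type*} [TopologicalSpace X] (U : Set X) : Prop := IsOpen U ∧ U.Nonempty

/-- `ω_{𝒩_T}(x)`. -/
def omegaN {X : Type*} [TopologicalSpace X] (T : X → X) (x : X) : Set X :=
  ⋂ F ∈ {F | ∃ U V, Opene U ∧ Opene V ∧ N T U V ⊆ F}, closure ((fun i => T^[i] x) '' F)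

/-- the usual omega-limit set. -/
def omega {X : Type*} [TopologicalSpace X] (T : X → X) (y : X) : Set X :=
  ⋂ n ≥ 1, closure ((fun k => T^[k] y) '' Ici n)

def WeakMixing {X : Type*} [TopologicalSpace X] (T : X → X) : Prop :=
  ∀ W₁ W₂ : Set (X × X), Opene W₁ → Opene W₂ → (N (Prod.map T T) W₁ W₂).Nonempty

def w (n : ℕ) : Fin 3 := if Nat.log 2 (n + 2) % 2 = 0 then 0 else 1

lemma w_ne (n : ℕ) : w n ≠ 2 := by unfold w; split_ifs <;> decide

lemma block (c : Fin 3) (hc : c ≠ 2) (L : ℕ) : ∃ a, ∀ m, a ≤ m → m ≤ a + L → w m = c := by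
  have h := Nat.lt_two_pow_self (n := 2 * L + 2 + c)
  refine ⟨2 ^ (2 * L + 2 + c) - 2, fun m h1 h2 => ?_⟩
  have : Nat.log 2 (m + 2) = 2 * L + 2 + c :=
    Nat.log_eq_of_pow_le_of_lt_pow (by omega) (by rw [pow_succ]; omega)
  unfold w; rw [this]
  fin_cases c
  · rw [if_pos (by simp)]; rfl
  · rw [if_neg (by simp; omega)]; rfl
  · exact absurd rfl hc

def S : Set (ℕ → Fin 3) := {y | ∀ i n, w n ≠ w (n + 1) → y i ≠ 2 ∨ y (i + n) ≠ 2}

lemma S_closed : IsClosed S := by
  simp only [S, setOf_forall]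
  exact isClosed_iInter fun i => isClosed_iInter fun n => isClosed_iInter fun _ =>
    ((isClosed_discrete {a | a ≠ 2}).preimage (continuous_apply i)).union
      ((isClosed_discrete {a | a ≠ 2}).preimage (continuous_apply (i + n)))

instance : CompactSpace S := isCompact_iff_compactSpace.1 S_closed.isCompact

def T (y : S) : S := ⟨fun i => y.1 (i + 1), fun i n h => by
  have := y.2 (i + 1) n h
  rwa [show i + 1 + n = i + n + 1 by omega] at this⟩

lemma T_iter (n : ℕ) (y : S) (i : ℕ) : (T^[n] y).1 i = y.1 (i + n) := by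
  induction n generalizing i with
  | zero => rfl
  | succ n ih => rw [iterate_succ_apply']; exact (ih (i + 1)).trans (congrArg y.1 (by omega))

lemma cyl {u : S} {s : Set S} (h : s ∈ 𝓝 u) :
    ∃ L, ∀ y : S, (∀ i < L, y.1 i = u.1 i) → y ∈ s := by
  obtain ⟨t, ht, hs⟩ := (mem_nhds_subtype _ _ _).1 h
  rw [nhds_pi, Filter.mem_pi] at ht
  obtain ⟨I, hI, r, hr, hsub⟩ := ht
  obtain ⟨b, hb⟩ := hI.bddAbove
  exact ⟨b + 1, fun y hy => hs (hsub fun i hi => by
    rw [hy i (Nat.lt_succ_of_le (hb hi))]; exact mem_of_mem_nhds (hr i))⟩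

lemma glue (u v : S) {L a : ℕ} {c : Fin 3} (h : ∀ m, a ≤ m → m ≤ a + (2 * L + 1) → w m = c) :
    ∃ y : S, (∀ i < L, y.1 i = u.1 i) ∧ ∀ i < L, (T^[a + L] y).1 i = v.1 i := by
  refine ⟨⟨fun i => if i < L then u.1 i else
    if a + L ≤ i ∧ i < a + L + L then v.1 (i - (a + L)) else 0, fun i n hn => ?_⟩,
    fun i hi => if_pos hi, fun i hi => ?_⟩
  · beta_reduce
    split_ifs with h1 h2 h3 h4 h5 h6
    any_goals omega
    · exact u.2 i n hn
    · exact absurd ((h n (by omega) (by omega)).trans (h _ (by omega) (by omega)).symm) hn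
    · have := v.2 (i - (a + L)) n hn
      rwa [show i - (a + L) + n = i + n - (a + L) by omega] at this
  · rw [T_iter]
    show ite _ _ _ = _
    rw [if_neg (by omega), if_pos (by omega)]; exact congrArg v.1 (by omega)

def x0 : S := ⟨w, fun i _ _ => Or.inl (w_ne i)⟩
def cst (c : Fin 3) (hc : c ≠ 2) : S := ⟨fun _ => c, fun _ _ _ => Or.inl hc⟩

lemma cst_mem (c : Fin 3) (hc : c ≠ 2) : cst c hc ∈ omegaN T x0 := by
  refine mem_iInter₂.2 ?_
  rintro F ⟨U, V, ⟨hU, u, hu⟩, ⟨hV, v, hv⟩, hF⟩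
  refine mem_closure_iff_nhds.2 fun t ht => ?_
  obtain ⟨L1, h1⟩ := cyl ht
  obtain ⟨L2, h2⟩ := cyl (hU.mem_nhds hu)
  obtain ⟨L3, h3⟩ := cyl (hV.mem_nhds hv)
  obtain ⟨a, ha⟩ := block c hc (2 * (L1 + L2 + L3) + 1)
  obtain ⟨y, hy1, hy2⟩ := glue u v ha
  refine ⟨_, h1 _ fun i hi => ?_, _, hF ⟨y, h2 _ fun i hi => hy1 i (by omega),
    h3 _ fun i hi => hy2 i (by omega)⟩, rfl⟩
  rw [T_iter]; exact ha _ (by omega) (by omega)

lemma co (i : ℕ) : Continuous fun y : S => y.1 i := (continuous_apply i).comp continuous_subtype_val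

lemma sub : omegaN T x0 ⊆ {z | z.1 0 = z.1 1} := by
  have hU : Opene {y : S | y.1 0 = 2} := ⟨(isOpen_discrete {2}).preimage (co 0),
    ⟨fun i => if i = 0 then 2 else 0, fun i n hn => by
      rcases n with _ | n
      · exact absurd (by decide) hn
      · exact Or.inr (by simp)⟩, rfl⟩
  intro z hz
  refine closure_minimal ?_ (isClosed_eq (co 0) (co 1)) (mem_iInter₂.1 hz _ ⟨_, _, hU, hU, le_rfl⟩)
  rintro _ ⟨n, ⟨y, h1, h2⟩, rfl⟩
  by_contra hn
  simp only [mem_setOf_eq, mem_preimage, T_iter] at hn h1 h2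
  rw [zero_add, add_comm] at hn
  rcases y.2 0 n hn with h | h
  exacts [h h1, h h2]

theorem result : ∃ (X : Type) (_ : TopologicalSpace X), TopologicalSpace.MetrizableSpace X ∧
    CompactSpace X ∧ Nontrivial X ∧ (∀ x : X, (𝓝[≠] x).NeBot) ∧
    ∃ T : X → X, Continuous T ∧ Surjective T ∧ WeakMixing T ∧
      ∃ x, ∀ y, omegaN T x ≠ omega T y := by
  refine ⟨S, inferInstance, inferInstance, inferInstance,
    ⟨cst 0 (by decide), cst 1 (by decide), fun h => absurd (congrFun (congrArg Subtype.val h) 0)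
      (by decide)⟩, fun y => ?_, T, (continuous_pi fun i => co (i + 1)).subtype_mk _,
    fun y => ?_, ?_, x0, fun y h => ?_⟩
  · refine mem_closure_iff_nhdsWithin_neBot.1 (mem_closure_iff_nhds.2 fun t ht => ?_)
    obtain ⟨L, hL⟩ := cyl ht
    refine ⟨⟨fun i => if i = L then (if y.1 L = 0 then 1 else 0) else y.1 i, fun i n hn => ?_⟩,
      hL _ fun i hi => if_neg hi.ne, fun h => ?_⟩
    · beta_reduce
      split_ifs
      any_goals (first | (left; decide) | (right; decide))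
      all_goals exact y.2 i n hn
    · have := congrFun (congrArg Subtype.val h) L
      simp only [if_true] at this
      split_ifs at this with h0
      · rw [h0] at this; exact absurd this (by decide)
      · exact h0 this.symm
  · refine ⟨⟨fun i => Nat.casesOn i 0 y.1, fun i n hn => ?_⟩, rfl⟩
    rcases i with _ | i
    · exact Or.inl (by show (0 : Fin 3) ≠ 2; decide)
    · rw [show i + 1 + n = i + n + 1 by omega]; exact y.2 i n hn
  · rintro W₁ W₂ ⟨h1, ⟨u, u'⟩, hu⟩ ⟨h2, ⟨v, v'⟩, hv⟩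
    obtain ⟨s1, a1, t1, b1, e1⟩ := mem_nhds_prod_iff.1 (h1.mem_nhds hu)
    obtain ⟨s2, a2, t2, b2, e2⟩ := mem_nhds_prod_iff.1 (h2.mem_nhds hv)
    obtain ⟨L1, h1⟩ := cyl a1
    obtain ⟨L2, h2⟩ := cyl b1
    obtain ⟨L3, h3⟩ := cyl a2
    obtain ⟨L4, h4⟩ := cyl b2
    obtain ⟨a, ha⟩ := block 0 (by decide) (2 * (L1 + L2 + L3 + L4) + 1)
    obtain ⟨y, p1, p2⟩ := glue u v ha
    obtain ⟨y', q1, q2⟩ := glue u' v' ha
    refine ⟨a + (L1 + L2 + L3 + L4), (y, y'), e1 ⟨h1 _ fun i hi => p1 i (by omega),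
      h2 _ fun i hi => q1 i (by omega)⟩, ?_⟩
    rw [mem_preimage, Prod.map_iterate]
    exact e2 ⟨h3 _ fun i hi => p2 i (by omega), h4 _ fun i hi => q2 i (by omega)⟩
  · have vis : ∀ c hc n, ∃ k ≥ n, y.1 k = c := fun c hc n => by
      have := mem_iInter₂.1 (h ▸ cst_mem c hc) (n + 1) (by omega)
      obtain ⟨_, h1, k, hk, rfl⟩ := mem_closure_iff.1 this {z | z.1 0 = c}
        ((isOpen_discrete {c}).preimage (co 0)) rfl
      exact ⟨k, Nat.le_of_succ_le hk, by simpa [T_iter] using h1⟩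
    have ch : ∀ n, ∃ k ≥ n, y.1 k ≠ y.1 (k + 1) := fun n => by
      by_contra hh
      push Not at hh
      obtain ⟨k, hk, e⟩ := vis 0 (by decide) n
      obtain ⟨l, hl, e'⟩ := vis 1 (by decide) k
      have : y.1 l = 0 := by
        clear e'
        induction l, hl using Nat.le_induction with
        | base => exact e
        | succ l hl ih => rw [← hh l (by omega), ih]
      rw [this] at e'; exact absurd e' (by decide)
    have hc : IsClosed {z : S | z.1 0 ≠ z.1 1} :=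
      (isClosed_discrete {p : Fin 3 × Fin 3 | p.1 ≠ p.2}).preimage ((co 0).prodMk (co 1))
    obtain ⟨z, hz⟩ := IsCompact.nonempty_iInter_of_sequence_nonempty_isCompact_isClosed
      (fun n => closure ((fun k => T^[k] y) '' Ici n) ∩ {z : S | z.1 0 ≠ z.1 1})
      (fun n => inter_subset_inter_left _ (closure_mono (image_mono (Ici_subset_Ici.2 n.le_succ))))
      (fun n => by
        obtain ⟨k, hk, e⟩ := ch n
        exact ⟨_, subset_closure ⟨k, hk, rfl⟩, by simpa [T_iter, add_comm] using e⟩)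
      (isClosed_closure.inter hc).isCompact (fun n => isClosed_closure.inter hc)
    rw [mem_iInter] at hz
    exact (hz 0).2 (sub (h ▸ mem_iInter₂.2 fun n _ => (hz n).1))

end Pool.Agent.Results.MP_8a65de_an.Counter
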